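import Mathlib
import Pool.Agent.U605.ST.Final
import Pool.Agent.H248R5.Gen
import Pool.Agent.H248R6.Dim

set_option autoImplicit false

/-!
# Equal multiplicities and a tail of small ones: nonspecial in every degree, smooth general members

Let `n ≥ 36` of `r` general points of the complex projective plane have multiplicity `M`. The further
points are arbitrarily many simple points and a tail of multiplicities `m i ≥ 2`, of which

* all are at most `3 √n / 4 - 3 / 2`, `4 ∑ m i (m i + 1) ≤ 3 (√n - 5) M` and `M ≥ n / 4`, or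
* all are at most `9 √n / 8 - 17 / 8`, `4 ∑ m i (m i + 1) ≤ (√n - 5) M` and `M ≥ n / 2`.

Then `|d H - ∑ m i E i|` is nonspecial for EVERY `d`, and for ALL multiplicities `u i ≤ m i` the system
`|d H - ∑ u i E i|` is nonspecial if `∑ (m i + 1).choose 2 ≤ (d + 2).choose 2`, and its general member
is a smooth curve on the blow-up if `∑ (m i + 1).choose 2 ≤ (d + 1).choose 2`. For `u = m` these are
all the nonempty systems but at most one, that of the smallest degree. The points are those of one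
nonempty open set, for all `d` and `u`.
-/

namespace Pool.Agent.Results.MP_0421d9_ag.EqualPlusSmallSmooth

open Pool.Agent Finset Pool.Agent.H248R5 Pool.Agent.H248R6

/-- The tail: the points whose multiplicity is at least `2` and different from `M`. -/
def tail {r : ℕ} (M : ℕ) (m : Fin r → ℕ) : Finset (Fin r) :=
  Finset.univ.filter fun i => 2 ≤ m i ∧ m i ≠ M

theorem surj_of {n : ℕ} {w u : Fin n → ℕ} {P : Fin n → Fin 2 → ℂ} {d : ℕ}
    (h : H932R3.ExpDim ℂ w P d) (hd : ∑ i, (w i + 1).choose 2 ≤ (d + 2).choose 2)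
    (hu : ∀ i, u i ≤ w i) : Function.Surjective (ev u P d) := by
  refine surj_mono hu (surj_of_ind ?_)
  have h1 : Module.finrank ℂ ↥(forms w P d) = (d + 2).choose 2 - ∑ i, (w i + 1).choose 2 := h
  omega

theorem result (r : ℕ) (m : Fin r → ℕ) (n M : ℕ) (hn : 36 ≤ n)
    (hcard : (Finset.univ.filter fun i => m i = M).card = n)
    (htail :
      (n ≤ 4 * M ∧ (∀ i ∈ tail M m, (m i : ℝ) ≤ 3 * √(n : ℝ) / 4 - 3 / 2) ∧
        4 * ∑ i ∈ tail M m, (m i : ℝ) * (m i + 1) ≤ 3 * (√(n : ℝ) - 5) * M) ∨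
      (n ≤ 2 * M ∧ (∀ i ∈ tail M m, (m i : ℝ) ≤ 9 * √(n : ℝ) / 8 - 17 / 8) ∧
        4 * ∑ i ∈ tail M m, (m i : ℝ) * (m i + 1) ≤ (√(n : ℝ) - 5) * M)) :
    ∃ F : MvPolynomial (Fin r × Fin 2) ℂ, F ≠ 0 ∧
      ∀ P : Fin r → Fin 2 → ℂ,
        MvPolynomial.eval (fun ij : Fin r × Fin 2 => P ij.1 ij.2) F ≠ 0 →
        ∀ d : ℕ,
          Module.finrank ℂ ↥(forms m P d) = (d + 2).choose 2 - ∑ i, (m i + 1).choose 2 ∧
          ∀ u : Fin r → ℕ, (∀ i, u i ≤ m i) →
            (∑ i, (m i + 1).choose 2 ≤ (d + 2).choose 2 →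
              Module.finrank ℂ ↥(forms u P d) = (d + 2).choose 2 - ∑ i, (u i + 1).choose 2) ∧
            (∑ i, (m i + 1).choose 2 ≤ (d + 1).choose 2 →
              GeneralMember (forms u P d) (SmoothMember u P)) := by
  classical
  have hsmall : Pool.Agent.U605.ST.Small n M (fun b => 2 ≤ b ∧ b ≠ M ∧ ∃ i, m i = b)
      (∑ i ∈ Finset.univ.filter (fun i => 2 ≤ m i ∧ m i ≠ M), (m i : ℝ) * (m i + 1)) := by
    rcases htail with ⟨h0, h1, h2⟩ | ⟨h0, h1, h2⟩
    · refine Or.inr ⟨h0, ?_, ?_⟩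
      · rintro b ⟨hb1, hb2, i, rfl⟩
        have := h1 i (Finset.mem_filter.2 ⟨Finset.mem_univ _, hb1, hb2⟩)
        linarith
      · rw [mul_assoc 3] at h2
        exact h2
    · refine Or.inl ⟨h0, ?_, h2⟩
      rintro b ⟨hb1, hb2, i, rfl⟩
      have := h1 i (Finset.mem_filter.2 ⟨Finset.mem_univ _, hb1, hb2⟩)
      linarith
  have hM : 2 ≤ M := by
    rcases htail with ⟨h0, -, -⟩ | ⟨h0, -, -⟩ <;> omega
  obtain ⟨F, hF, hF'⟩ := Pool.Agent.U605.ST.expDim_tail m hn hcard hsmall
  refine ⟨F.map (algebraMap ℚ ℂ) * disc ℂ r, mul_ne_zero (H932R3.map_ne_zero_of hF)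
    (disc_ne ℂ r), fun P hP => ?_⟩
  rw [map_mul, MvPolynomial.eval_map] at hP
  have h3 : ∀ d, H932R3.ExpDim ℂ m P d := hF' P (left_ne_zero_of_mul hP)
  refine fun d => ⟨h3 d, fun u hu => ⟨fun hd => ?_, fun hd => ?_⟩⟩
  · have h4 := finrank_of_surj (surj_of (h3 d) hd hu)
    omega
  · have hd0 : 0 < d := by
      rcases Nat.eq_zero_or_pos d with h0 | h0
      · exfalso
        subst h0
        obtain ⟨i, hi⟩ : (Finset.univ.filter fun i => m i = M).Nonempty := by
          rw [← Finset.card_pos]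
          omega
        have h5 : (m i + 1).choose 2 ≤ ∑ i, (m i + 1).choose 2 :=
          Finset.single_le_sum (f := fun i => (m i + 1).choose 2) (fun i _ => Nat.zero_le _)
            (Finset.mem_univ _)
        have h6 : 0 < (m i + 1).choose 2 := Nat.choose_pos (by
          have := (Finset.mem_filter.1 hi).2
          omega)
        have h7 : (0 + 1).choose 2 = 0 := rfl
        omega
      · exact h0
    obtain ⟨e, rfl⟩ : ∃ e, d = e + 1 := ⟨d - 1, by omega⟩
    exact general_smooth (inj_of_disc (right_ne_zero_of_mul hP))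
      (finrank_of_surj (surj_of (h3 e) hd hu)).le

end Pool.Agent.Results.MP_0421d9_ag.EqualPlusSmallSmooth
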