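import Mathlib
import Pool.Agent.U810.GI.Final

set_option autoImplicit false

/-!
# Equal multiplicities: reduced, irreducible and smooth general members in EVERY degree

`P` are `n` general points of the complex projective plane and `v` is a grouped vector of
multiplicities: equal multiplicities at `n ≥ 36` (or `n = 13, 16, 21`) points, or several
multiplicities, each of them attained at `320000 * (number of the different multiplicities)` points
at least. In EVERY degree `d`, the first one with a nonempty system included:

* `|d H - ∑ v i E i|` is nonspecial, and if it is not empty its general member is reduced;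
* if `h⁰ (d; v) ≥ 2` then for ALL `u i ≤ v i` the system `|d H - ∑ u i E i|` is nonspecial, has no
  fixed component, and its general member is irreducible; it is also smooth on the blow-up if
  `h⁰ (d; v) > max v` (and `n ≠ 21`).

For `u = v` what remains of Q1 is the smoothness in the first degree if `1 ≤ h⁰ ≤ max v`.
-/

namespace Pool.Agent.Results.MP_0421d9_ag.EveryDegreeIrreducible

open Pool.Agent Finset Pool.Agent.H248R5 Pool.Agent.U810.GI

theorem result (n d : ℕ) (v : Fin n → ℕ)
    (hv : ((36 ≤ n ∨ n = 13 ∨ n = 16 ∨ n = 21) ∧ ∀ i j, v i = v j) ∨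
      ∀ i, 320000 * (univ.image v).card ≤ (univ.filter fun j => v j = v i).card) :
    ∃ F : MvPolynomial (Fin n × Fin 2) ℂ, F ≠ 0 ∧
      ∀ P : Fin n → Fin 2 → ℂ,
        MvPolynomial.eval (fun ij : Fin n × Fin 2 => P ij.1 ij.2) F ≠ 0 →
          Module.finrank ℂ ↥(forms v P d) = (d + 2).choose 2 - ∑ i, (v i + 1).choose 2 ∧
          (∑ i, (v i + 1).choose 2 < (d + 2).choose 2 →
            GeneralMember (forms v P d) Squarefree) ∧
          (∑ i, (v i + 1).choose 2 + 2 ≤ (d + 2).choose 2 →
            ∀ u : Fin n → ℕ, (∀ i, u i ≤ v i) →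
              Module.finrank ℂ ↥(forms u P d) + ∑ i, (u i + 1).choose 2 = (d + 2).choose 2 ∧
              (∀ g : MvPolynomial (Fin 3) ℂ, (∀ G ∈ forms u P d, g ∣ G) → IsUnit g) ∧
              GeneralMember (forms u P d) Irreducible ∧
              (n ≠ 21 → (∀ i, ∑ j, (v j + 1).choose 2 + v i < (d + 2).choose 2) →
                GeneralMember (forms u P d) fun G => Irreducible G ∧ SmoothMember u P G)) := by
  obtain ⟨F, hF, hF'⟩ := grouped_all (K := ℂ) (d := d) (v := v) hv
  refine ⟨F.map (algebraMap ℚ ℂ), Pool.Agent.H932R3.map_ne_zero_of hF, fun P hP => ?_⟩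
  rw [MvPolynomial.eval_map] at hP
  exact hF' P hP

end Pool.Agent.Results.MP_0421d9_ag.EveryDegreeIrreducible
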