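import Mathlib
import Pool.Agent.U810.IR.Final

set_option autoImplicit false

/-!
# Hirschowitz's conjecture above the first degree: smooth AND irreducible general members

Let `v` be an almost regular vector of multiplicities (`Pool.Agent.Y939.NC.AlmostRegular` with the
explicit number `150`) such that `v - 1` is almost regular too, or `v ≤ 2`, and let
`∑ (v i + 1).choose 2 ≤ (d + 2).choose 2`. Then for general points `P i` of the complex projective
plane and ALL multiplicities `u i ≤ v i` the linear system `|(d + 1) H - ∑ u i E i|` is nonspecial,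
and its general member is a smooth and IRREDUCIBLE curve on the blow-up. For `u = v` these are all
nonempty systems but the one of the smallest degree.

This applies to equal multiplicities `m ≥ 1` at `n ≥ 37` points, to multiplicities `m`, `m + 1` at
`n ≥ 150` points, and to both with any number of simple points added.
-/

namespace Pool.Agent.Results.MP_0421d9_ag.IrreducibleSmooth

open Pool.Agent Finset Pool.Agent.H248R5 Pool.Agent.H248R6 Pool.Agent.Y939.NC

theorem result (n d : ℕ) (v : Fin n → ℕ) (hv : AlmostRegular 150 v)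
    (hv' : AlmostRegular 150 (fun i => v i - 1) ∨ ∀ i, v i ≤ 2)
    (hd : ∑ i, (v i + 1).choose 2 ≤ (d + 2).choose 2) :
    ∃ F : MvPolynomial (Fin n × Fin 2) ℂ, F ≠ 0 ∧
      ∀ P : Fin n → Fin 2 → ℂ,
        MvPolynomial.eval (fun ij : Fin n × Fin 2 => P ij.1 ij.2) F ≠ 0 →
          ∀ u : Fin n → ℕ, (∀ i, u i ≤ v i) →
            Module.finrank ℂ ↥(forms u P (d + 1)) + ∑ i, (u i + 1).choose 2 =
              (d + 3).choose 2 ∧
            GeneralMember (forms u P (d + 1)) fun G => Irreducible G ∧ SmoothMember u P G := by
  classical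
  obtain ⟨F, hF, hF'⟩ := Pool.Agent.U810.IR.irr_smooth hv hv' hd
  refine ⟨F.map (algebraMap ℚ ℂ) * disc ℂ n, mul_ne_zero (H932R3.map_ne_zero_of hF)
    (disc_ne ℂ n), fun P hP u hu => ?_⟩
  rw [map_mul, MvPolynomial.eval_map] at hP
  exact hF' ℂ P (left_ne_zero_of_mul hP) (inj_of_disc (right_ne_zero_of_mul hP)) u hu

end Pool.Agent.Results.MP_0421d9_ag.IrreducibleSmooth
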