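import Mathlib
import Pool.Agent.U479.DP.SegreOpen
import Pool.Agent.H248R5.Gen
import Pool.Agent.H248R6.Dim

set_option autoImplicit false

/-!
# Reduced curves with double points: the points of multiplicity one and two may be omitted

For ALL degrees `d` and multiplicities `w` at general points of the complex projective plane: if
`|d H - ∑ w i E i|` contains a curve without multiple components, then the double and the simple
points impose independent conditions, that is the dimension is by `3` for each double and by `1` for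
each simple point smaller than the dimension of the system of the curves of degree `d` with the
points of multiplicity `≥ 3` only. So a system which contains a reduced curve is nonspecial as soon
as the system without the points of multiplicity `≤ 2` is.

In particular let `k ≥ 10` points have multiplicities `m` or `m + 1`, `m ≥ 1` arbitrary. There is one
degree `d0`, depending on these multiplicities only, such that for every `d ≠ d0` and EVERY number of
further points of multiplicity `≤ 2` the following holds: if the system of degree `d` contains a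
reduced curve, then it is nonspecial, and for all `e > d` the system of degree `e` is nonspecial and
its general member is a smooth curve on the blow-up.
-/

namespace Pool.Agent.Results.MP_0421d9_ag.ReducedDoublePoints

open MvPolynomial Pool.Agent Pool.Agent.H248R5 Pool.Agent.H248R6 Pool.Agent.U479.DP

/-- The property holds for all `n`-tuples of points outside some hypersurface. -/
def ForGeneral {n : ℕ} (p : (Fin n → Fin 2 → ℂ) → Prop) : Prop :=
  ∃ F : MvPolynomial (Fin n × Fin 2) ℂ, F ≠ 0 ∧ ∀ P : Fin n → Fin 2 → ℂ,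
    eval (fun ij : Fin n × Fin 2 => P ij.1 ij.2) F ≠ 0 → p P

/-- The multiplicities `≥ 3`; the points of multiplicity `1` and `2` are omitted. -/
def aboveTwo {n : ℕ} (w : Fin n → ℕ) : Fin n → ℕ := fun i => if 3 ≤ w i then w i else 0

/-- Some form of degree `d` with multiplicities `w` at the points `P` has no multiple factor. -/
def ContainsReduced {n : ℕ} (P : Fin n → Fin 2 → ℂ) (d : ℕ) (w : Fin n → ℕ) : Prop :=
  ∃ f ∈ forms w P d, Squarefree f

/-- The system has the expected dimension. -/
def Nonspecial {n : ℕ} (P : Fin n → Fin 2 → ℂ) (d : ℕ) (w : Fin n → ℕ) : Prop :=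
  Module.finrank ℂ ↥(forms w P d) = (d + 2).choose 2 - ∑ i, (w i + 1).choose 2

theorem sum_eq {n : ℕ} (w : Fin n → ℕ) :
    ∑ j, (if j ∈ Finset.univ.filter (fun i => 3 ≤ w i) then 0 else (w j + 1).choose 2) =
      3 * (Finset.univ.filter fun i => w i = 2).card + (Finset.univ.filter fun i => w i = 1).card := by
  rw [Finset.card_filter, Finset.card_filter, Finset.mul_sum, ← Finset.sum_add_distrib]
  refine Finset.sum_congr rfl fun j _ => ?_
  by_cases hj : 3 ≤ w j
  · rw [if_pos (by simp [hj]), if_neg (by omega), if_neg (by omega)]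
    rfl
  · rw [if_neg (by simp [hj])]
    interval_cases h : w j <;> rfl

theorem surj_of {n : ℕ} {w : Fin n → ℕ} {P : Fin n → Fin 2 → ℂ} {d : ℕ}
    (h : H932R3.ExpDim ℂ w P d) (hd : ∑ i, (w i + 1).choose 2 ≤ (d + 2).choose 2) :
    Function.Surjective (ev w P d) := by
  refine surj_of_ind ?_
  have h1 : Module.finrank ℂ ↥(forms w P d) = (d + 2).choose 2 - ∑ i, (w i + 1).choose 2 := h
  omega

theorem surj_succ {n : ℕ} {w : Fin n → ℕ} {P : Fin n → Fin 2 → ℂ} {e : ℕ}
    (h : Function.Surjective (ev w P e)) : Function.Surjective (ev w P (e + 1)) := by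
  intro y
  obtain ⟨H, hH⟩ := h y
  refine ⟨⟨(H : MvPolynomial (Fin 3) ℂ) * X 2, H.2.mul (isHomogeneous_X ℂ 2)⟩, funext fun i => ?_⟩
  rw [← congrFun hH i, ev_apply, ev_apply]
  change Ideal.Quotient.mk _ (tau (P i) ((H : MvPolynomial (Fin 3) ℂ) * X 2)) = _
  rw [map_mul, tau_X2, mul_one]

theorem surj_ge {n : ℕ} {w : Fin n → ℕ} {P : Fin n → Fin 2 → ℂ} {d : ℕ}
    (h : Function.Surjective (ev w P d)) {e : ℕ} (he : d ≤ e) :
    Function.Surjective (ev w P e) := by
  induction e, he using Nat.le_induction with
  | base => exact h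
  | succ e _ ih => exact surj_succ ih

theorem result :
    (∀ (n d : ℕ) (w : Fin n → ℕ), ForGeneral fun P => ContainsReduced P d w →
      Module.finrank ℂ ↥(forms w P d) + (3 * (Finset.univ.filter fun i => w i = 2).card +
        (Finset.univ.filter fun i => w i = 1).card) =
          Module.finrank ℂ ↥(forms (aboveTwo w) P d)) ∧
    (∀ (k m : ℕ) (v : Fin k → ℕ), 10 ≤ k → 1 ≤ m → (∀ i, v i = m ∨ v i = m + 1) →
      ∃ d0 : ℕ, ∀ d : ℕ, d ≠ d0 → ∀ (j : ℕ) (u : Fin j → ℕ), (∀ i, u i ≤ 2) →
        ForGeneral fun P => ContainsReduced P d (Fin.append v u) →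
          Nonspecial P d (Fin.append v u) ∧ ∀ e : ℕ, d < e → Nonspecial P e (Fin.append v u) ∧
            GeneralMember (forms (Fin.append v u) P e) (SmoothMember (Fin.append v u) P)) := by
  classical
  refine ⟨fun n d w => ?_, fun k m v hk hm hv => ?_⟩
  · obtain ⟨F, hF, hF'⟩ := segre_open_eq (w := w) (S := Finset.univ.filter fun i => 3 ≤ w i)
      (fun j hj => by
        rw [Finset.mem_filter] at hj
        by_contra h
        exact hj ⟨Finset.mem_univ _, by omega⟩) d
    refine ⟨F.map (algebraMap ℚ ℂ), H932R3.map_ne_zero_of hF, fun P hP hex => ?_⟩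
    rw [MvPolynomial.eval_map] at hP
    have h1 := hF' ℂ P hP
    rw [Pool.Agent.W609.CR.vs_eq_forms, Pool.Agent.W609.CR.vs_eq_forms, sum_eq] at h1
    have e1 : (fun j => if j ∈ Finset.univ.filter (fun i => 3 ≤ w i) then w j else 0) =
        aboveTwo w := by
      funext j
      unfold aboveTwo
      by_cases hj : 3 ≤ w j
      · rw [if_pos (by simp [hj]), if_pos hj]
      · rw [if_neg (by simp [hj]), if_neg hj]
    rw [e1] at h1
    exact h1 hex
  · obtain ⟨d0, hd0⟩ := TH885.NW.exists_deg hk
      (Real.sqrt k + 2 * (∑ i, (v i : ℝ)) / Real.sqrt k)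
    refine ⟨d0, fun d hd j u hu => ?_⟩
    obtain ⟨e, he⟩ : ∃ e : Fin k ↪ Fin (k + j), e = Fin.castAddEmb j := ⟨_, rfl⟩
    have hel : ∀ i, e i = Fin.castAdd j i := fun i => by rw [he]; rfl
    have hwe : ∀ i, Fin.append v u (e i) = v i := fun i => by rw [hel, Fin.append_left]
    have hw2 : ∀ i, i ∉ Finset.univ.map e → Fin.append v u i ≤ 2 := by
      intro i
      refine Fin.addCases (fun l => ?_) (fun l => ?_) i
      · intro h
        exact absurd (Finset.mem_map.2 ⟨l, Finset.mem_univ _, hel l⟩) h
      · intro _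
        rw [Fin.append_right]
        exact hu l
    have hd' := hd0 d hd
    have hsum : ∑ i, (v i : ℝ) = ∑ i, ((Fin.append v u (e i) : ℕ) : ℝ) :=
      Finset.sum_congr rfl fun i _ => by rw [hwe]
    rw [hsum] at hd'
    obtain ⟨F, hF, hF'⟩ := segre_open (w := Fin.append v u) hw2 (d := d)
      (fun K _ _ P hP => near_part hk hm e (w := Fin.append v u)
        (fun i => by rw [hwe]; exact hv i) hd' K P hP)
    refine ⟨F.map (algebraMap ℚ ℂ) * disc ℂ (k + j), mul_ne_zero (H932R3.map_ne_zero_of hF)
      (disc_ne ℂ (k + j)), fun P hP hex => ?_⟩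
    rw [map_mul, MvPolynomial.eval_map] at hP
    have h1 : H932R3.ExpDim ℂ (Fin.append v u) P d := hF' ℂ P (left_ne_zero_of_mul hP) (by
      rw [Pool.Agent.W609.CR.vs_eq_forms]
      exact hex)
    have h2 : Module.finrank ℂ ↥(forms (Fin.append v u) P d) =
        (d + 2).choose 2 - ∑ i, (Fin.append v u i + 1).choose 2 := h1
    obtain ⟨f, hf, hsq⟩ := hex
    have h3 : 0 < Module.finrank ℂ ↥(forms (Fin.append v u) P d) := by
      have hfin : Module.Finite ℂ ↥(forms (Fin.append v u) P d) := forms_finite _ P d
      rw [Module.finrank_pos_iff]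
      exact ⟨⟨f, hf⟩, 0, fun h => hsq.ne_zero (congrArg Subtype.val h)⟩
    have h4 := surj_of h1 (by omega)
    refine ⟨h2, fun c hc => ?_⟩
    obtain ⟨c, rfl⟩ : ∃ a, c = a + 1 := ⟨c - 1, by omega⟩
    have h5 := finrank_of_surj (surj_ge h4 (show d ≤ c + 1 by omega))
    have h6 := finrank_of_surj (surj_ge h4 (show d ≤ c by omega))
    refine ⟨?_, general_smooth (inj_of_disc (right_ne_zero_of_mul hP)) h6.le⟩
    unfold Nonspecial
    omega

end Pool.Agent.Results.MP_0421d9_ag.ReducedDoublePoints
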